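import Mathlib

/-!
# EHI data with gauge group `SU(2)` and their Rains functions
-/

namespace Pool.Agent.H754R3.Rains

open Matrix

/-- The compact connected semisimple Lie group `SU(2)`. -/
abbrev SU2 := Matrix.specialUnitaryGroup (Fin 2) ℂ

/-- `ϑ(x) = {x}(1-{x})`, where `{x}` is the fractional part. -/
noncomputable def theta (x : ℝ) : ℝ := Int.fract x * (1 - Int.fract x)

/-- `e(x) = exp(2πix)`. -/
noncomputable def e (x : ℝ) : ℂ := Complex.exp (((2 * Real.pi * x : ℝ) : ℂ) * Complex.I)

lemma e_add (x y : ℝ) : e (x + y) = e x * e y := by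
  unfold e
  rw [← Complex.exp_add]
  congr 1
  push_cast
  ring

lemma e_zero : e 0 = 1 := by simp [e]

lemma e_neg_mul (x : ℝ) : e (-x) * e x = 1 := by
  rw [← e_add]; simp [e_zero]

lemma e_mul_neg (x : ℝ) : e x * e (-x) = 1 := by
  rw [← e_add]; simp [e_zero]

lemma star_e (x : ℝ) : (starRingEnd ℂ) (e x) = e (-x) := by
  unfold e
  rw [← Complex.exp_conj, map_mul, Complex.conj_I, Complex.conj_ofReal]
  congr 1
  push_cast
  ring

lemma e_half : e (1 / 2) = -1 := by
  unfold e
  rw [show (2 * Real.pi * (1 / 2) : ℝ) = Real.pi by ring]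
  exact Complex.exp_pi_mul_I

lemma torus_mem (x : ℝ) : (!![e x, 0; 0, e (-x)] : Matrix (Fin 2) (Fin 2) ℂ) ∈ SU2 := by
  rw [Matrix.mem_specialUnitaryGroup_iff, Matrix.mem_unitaryGroup_iff]
  constructor
  · ext i j
    fin_cases i <;> fin_cases j <;>
      simp [Matrix.mul_apply, Matrix.star_apply, star_e, e_mul_neg, e_neg_mul]
  · simp [Matrix.det_fin_two, e_mul_neg]

/-- The maximal torus of `SU(2)`: `x ↦ diag(e(x), e(-x))`; in the coordinate `x` the weights of all
representations are integers. -/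
noncomputable def torus (x : ℝ) : SU2 := ⟨!![e x, 0; 0, e (-x)], torus_mem x⟩

/-- A finite-dimensional continuous representation of `SU(2)`, written in a basis of weight
vectors; `weight` lists the weights with multiplicity. -/
structure Rep where
  /-- the dimension -/
  dim : ℕ
  /-- the action -/
  ρ : SU2 →* Matrix (Fin dim) (Fin dim) ℂ
  continuous_ρ : Continuous ρ
  /-- the weights -/
  weight : Fin dim → ℤ
  torus_act : ∀ x : ℝ, ρ (torus x) = Matrix.diagonal fun i => e (weight i * x)

/-- `w` is a root of `SU(2)`: a nonzero weight of the adjoint action of the torus on the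
complexified Lie algebra, the traceless matrices. -/
def IsRoot (w : ℤ) : Prop :=
  w ≠ 0 ∧ ∃ X : Matrix (Fin 2) (Fin 2) ℂ, X ≠ 0 ∧ X.trace = 0 ∧
    ∀ x : ℝ, (torus x : Matrix (Fin 2) (Fin 2) ℂ) * X * (torus (-x) : Matrix (Fin 2) (Fin 2) ℂ)
      = e (w * x) • X

/-- The data of an elliptic hypergeometric integral (EHI) with gauge group `SU(2)`:
finitely many representations with R-charges in `(0,2)`, subject to the anomaly conditions. -/
structure Datum where
  /-- the number of representations -/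
  J : ℕ
  /-- the representations -/
  R : Fin J → Rep
  /-- the R-charges -/
  r : Fin J → ℝ
  r_mem : ∀ j, 0 < r j ∧ r j < 2
  /-- the roots -/
  roots : Finset ℤ
  mem_roots : ∀ w : ℤ, w ∈ roots ↔ IsRoot w
  cubic : ∑ j, ∑ i, ((R j).weight i : ℝ) ^ 3 = 0
  quadratic : ∑ j, (r j - 1) * ∑ i, ((R j).weight i : ℝ) ^ 2 + ∑ α ∈ roots, (α : ℝ) ^ 2 = 0

namespace Datum

/-- The datum is non-chiral: the nonzero weights of all the representations together (with
multiplicity) split into pairs `{w,-w}`. -/
def NonChiral (D : Datum) : Prop :=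
  ∀ w : ℤ, w ≠ 0 →
    ∑ j, (Finset.univ.filter fun i => (D.R j).weight i = w).card
      = ∑ j, (Finset.univ.filter fun i => (D.R j).weight i = -w).card

/-- The Rains function `L_h`. -/
noncomputable def rains (D : Datum) (x : ℝ) : ℝ :=
  1 / 2 * ∑ j, (1 - D.r j) * ∑ i, theta ((D.R j).weight i * x)
    - ∑ α ∈ D.roots.filter (fun α => 0 < α), theta (α * x)

/-- `Tr R = dim G + ∑ (r_j - 1) dim R_j`, with `dim SU(2) = 3`. -/
noncomputable def trR (D : Datum) : ℝ := 3 + ∑ j, (D.r j - 1) * ((D.R j).dim : ℝ)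

/-- No representation of the datum contains a gauge singlet (a nonzero invariant vector). -/
def NoSinglets (D : Datum) : Prop :=
  ∀ j, ∀ v : Fin (D.R j).dim → ℂ, (∀ g : SU2, ((D.R j).ρ g).mulVec v = v) → v = 0

end Datum

/-! ## The roots of `SU(2)` -/

lemma e_eq_one_all {w : ℤ} (h : ∀ x : ℝ, e (w * x) = 1) : w = 0 := by
  by_contra hw
  have h1 := h (1 / (2 * w))
  have hw' : (w : ℝ) ≠ 0 := by exact_mod_cast hw
  rw [show (w : ℝ) * (1 / (2 * w)) = 1 / 2 by field_simp, e_half] at h1
  norm_num at h1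

lemma torus_conj (x : ℝ) (X : Matrix (Fin 2) (Fin 2) ℂ) :
    (torus x : Matrix (Fin 2) (Fin 2) ℂ) * X * (torus (-x) : Matrix (Fin 2) (Fin 2) ℂ)
      = !![X 0 0, e (2 * x) * X 0 1; e (-(2 * x)) * X 1 0, X 1 1] := by
  have h2 : e (2 * x) = e x * e x := by rw [two_mul, e_add]
  have h3 : e (-(2 * x)) = e (-x) * e (-x) := by rw [two_mul, neg_add, e_add]
  have h4 := e_mul_neg x
  have h5 := e_neg_mul x
  obtain ⟨a, b, c, d, rfl⟩ : ∃ a b c d, X = !![a, b; c, d] := ⟨_, _, _, _, Matrix.eta_fin_two X⟩
  ext i j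
  fin_cases i <;> fin_cases j <;> simp [torus, h2, h3]
  · linear_combination a * h4
  · ring
  · ring
  · linear_combination d * h5

lemma isRoot_iff (w : ℤ) : w ∈ ({-2, 2} : Finset ℤ) ↔ IsRoot w := by
  constructor
  · intro hw
    simp only [Finset.mem_insert, Finset.mem_singleton] at hw
    rcases hw with rfl | rfl
    · refine ⟨by norm_num, !![0, 0; 1, 0], ?_, ?_, ?_⟩
      · intro h
        have := congrFun (congrFun h 1) 0
        simp at this
      · simp [Matrix.trace_fin_two]
      · intro x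
        rw [torus_conj]
        ext i j
        fin_cases i <;> fin_cases j <;> simp
    · refine ⟨by norm_num, !![0, 1; 0, 0], ?_, ?_, ?_⟩
      · intro h
        have := congrFun (congrFun h 0) 1
        simp at this
      · simp [Matrix.trace_fin_two]
      · intro x
        rw [torus_conj]
        ext i j
        fin_cases i <;> fin_cases j <;> simp
  · rintro ⟨hw, X, hX, htr, h⟩
    have h00 : X 0 0 = 0 := by
      by_contra hne
      apply hw
      apply e_eq_one_all
      intro x
      have h1 := congrFun (congrFun (h x) 0) 0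
      rw [torus_conj] at h1
      simp at h1
      have h2 : (1 - e (w * x)) * X 0 0 = 0 := by linear_combination h1
      rcases mul_eq_zero.mp h2 with h3 | h3
      · linear_combination -h3
      · exact absurd h3 hne
    have h11 : X 1 1 = 0 := by
      rw [Matrix.trace_fin_two, h00, zero_add] at htr
      exact htr
    simp only [Finset.mem_insert, Finset.mem_singleton]
    by_cases h01 : X 0 1 = 0
    · have h10 : X 1 0 ≠ 0 := by
        intro h10
        apply hX
        ext i j
        fin_cases i <;> fin_cases j <;> simp [h00, h01, h10, h11]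
      left
      have h0 : w + 2 = 0 := by
        apply e_eq_one_all
        intro x
        have h1 := congrFun (congrFun (h x) 1) 0
        rw [torus_conj] at h1
        simp at h1
        rcases h1 with h3 | h3
        · push_cast
          rw [add_mul, e_add]
          have h4 := e_neg_mul (2 * x)
          linear_combination (-e (2 * x)) * h3 + h4
        · exact absurd h3 h10
      omega
    · right
      have h0 : w - 2 = 0 := by
        apply e_eq_one_all
        intro x
        have h1 := congrFun (congrFun (h x) 0) 1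
        rw [torus_conj] at h1
        simp at h1
        rcases h1 with h3 | h3
        · push_cast
          rw [sub_mul, sub_eq_add_neg, e_add]
          have h4 := e_mul_neg (2 * x)
          linear_combination (-e (-(2 * x))) * h3 + h4
        · exact absurd h3 h01
      omega

/-! ## The symmetric square and the symmetric cube of the defining representation -/

/-- The matrix of `Sym² g` in the basis `e₁², e₁e₂, e₂²`. -/
def sym2 (g : Matrix (Fin 2) (Fin 2) ℂ) : Matrix (Fin 3) (Fin 3) ℂ :=
  !![g 0 0 ^ 2, g 0 0 * g 0 1, g 0 1 ^ 2;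
    2 * (g 0 0 * g 1 0), g 0 0 * g 1 1 + g 0 1 * g 1 0, 2 * (g 0 1 * g 1 1);
    g 1 0 ^ 2, g 1 0 * g 1 1, g 1 1 ^ 2]

/-- The matrix of `Sym³ g` in the basis `e₁³, e₁²e₂, e₁e₂², e₂³`. -/
def sym3 (g : Matrix (Fin 2) (Fin 2) ℂ) : Matrix (Fin 4) (Fin 4) ℂ :=
  !![g 0 0 ^ 3, g 0 0 ^ 2 * g 0 1, g 0 0 * g 0 1 ^ 2, g 0 1 ^ 3;
    3 * g 0 0 ^ 2 * g 1 0, g 0 0 ^ 2 * g 1 1 + 2 * g 0 0 * g 0 1 * g 1 0,
      g 0 1 ^ 2 * g 1 0 + 2 * g 0 0 * g 0 1 * g 1 1, 3 * g 0 1 ^ 2 * g 1 1;
    3 * g 0 0 * g 1 0 ^ 2, 2 * g 0 0 * g 1 0 * g 1 1 + g 0 1 * g 1 0 ^ 2,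
      2 * g 0 1 * g 1 0 * g 1 1 + g 0 0 * g 1 1 ^ 2, 3 * g 0 1 * g 1 1 ^ 2;
    g 1 0 ^ 3, g 1 0 ^ 2 * g 1 1, g 1 0 * g 1 1 ^ 2, g 1 1 ^ 3]

lemma sym2_one : sym2 1 = 1 := by
  ext i j
  fin_cases i <;> fin_cases j <;> simp [sym2]

lemma sym3_one : sym3 1 = 1 := by
  ext i j
  fin_cases i <;> fin_cases j <;> simp [sym3]

lemma sym2_mul (g h : Matrix (Fin 2) (Fin 2) ℂ) : sym2 (g * h) = sym2 g * sym2 h := by
  ext i j
  fin_cases i <;> fin_cases j <;>
    simp [sym2, Matrix.mul_apply, Fin.sum_univ_succ] <;> ring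

lemma sym3_mul (g h : Matrix (Fin 2) (Fin 2) ℂ) : sym3 (g * h) = sym3 g * sym3 h := by
  ext i j
  fin_cases i <;> fin_cases j <;>
    simp [sym3, Matrix.mul_apply, Fin.sum_univ_succ] <;> ring

lemma continuous_sym2 : Continuous sym2 := by
  refine continuous_matrix ?_
  intro i j
  fin_cases i <;> fin_cases j <;> simp [sym2] <;> fun_prop

lemma continuous_sym3 : Continuous sym3 := by
  refine continuous_matrix ?_
  intro i j
  fin_cases i <;> fin_cases j <;> simp [sym3] <;> fun_prop

/-- The adjoint representation `Sym² ℂ²`, weights `2, 0, -2`. -/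
noncomputable def adjRep : Rep where
  dim := 3
  ρ := { toFun := fun g => sym2 g, map_one' := sym2_one, map_mul' := fun g h => sym2_mul g h }
  continuous_ρ := continuous_sym2.comp continuous_subtype_val
  weight := ![2, 0, -2]
  torus_act := by
    intro x
    have h2 : e (2 * x) = e x * e x := by rw [two_mul, e_add]
    have h3 : e (-(2 * x)) = e (-x) * e (-x) := by rw [two_mul, neg_add, e_add]
    ext i j
    fin_cases i <;> fin_cases j <;>
      simp [sym2, torus, h2, h3, e_zero, e_mul_neg, pow_two]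

/-- The representation `Sym³ ℂ²` (spin `3/2`), weights `3, 1, -1, -3`. -/
noncomputable def cubeRep : Rep where
  dim := 4
  ρ := { toFun := fun g => sym3 g, map_one' := sym3_one, map_mul' := fun g h => sym3_mul g h }
  continuous_ρ := continuous_sym3.comp continuous_subtype_val
  weight := ![3, 1, -1, -3]
  torus_act := by
    intro x
    have h2 : e (3 * x) = e x ^ 3 := by
      rw [show 3 * x = x + x + x by ring, e_add, e_add]; ring
    have h3 : e (-(3 * x)) = e (-x) ^ 3 := by
      rw [show -(3 * x) = -x + -x + -x by ring, e_add, e_add]; ring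
    have h4 := e_mul_neg x
    ext i j
    fin_cases i <;> fin_cases j <;>
      simp [sym3, torus, h2, h3]
    · linear_combination (e x) * h4
    · linear_combination (e (-x)) * h4

/-! ## The datum -/

/-- The representations: two copies of `Sym³ ℂ²` and four copies of the adjoint representation. -/
noncomputable def reps : Fin 6 → Rep := ![cubeRep, cubeRep, adjRep, adjRep, adjRep, adjRep]

/-- The R-charges: `3/2` for the copies of `Sym³ ℂ²`, `1/8` for the adjoint copies. -/
noncomputable def charges : Fin 6 → ℝ := ![3 / 2, 3 / 2, 1 / 8, 1 / 8, 1 / 8, 1 / 8]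

lemma sum_cube (f : ℤ → ℝ) : ∑ i, f (cubeRep.weight i) = f 3 + f 1 + f (-1) + f (-3) := by
  change ∑ i : Fin 4, f ((![3, 1, -1, -3] : Fin 4 → ℤ) i) = _
  simp [Fin.sum_univ_four]

lemma sum_adj (f : ℤ → ℝ) : ∑ i, f (adjRep.weight i) = f 2 + f 0 + f (-2) := by
  change ∑ i : Fin 3, f ((![2, 0, -2] : Fin 3 → ℤ) i) = _
  simp [Fin.sum_univ_three]

lemma sum_six (F : Rep → ℝ → ℝ) : ∑ j, F (reps j) (charges j)
    = 2 * F cubeRep (3 / 2) + 4 * F adjRep (1 / 8) := by
  simp only [Fin.sum_univ_six, reps, charges]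
  simp
  ring

/-- The datum. -/
noncomputable def datum : Datum where
  J := 6
  R := reps
  r := charges
  r_mem := by
    intro j
    fin_cases j <;> simp [charges] <;> norm_num
  roots := {-2, 2}
  mem_roots := isRoot_iff
  cubic := by
    rw [sum_six (fun R _ => ∑ i, ((R.weight i : ℤ) : ℝ) ^ 3)]
    rw [sum_cube (fun w => (w : ℝ) ^ 3), sum_adj (fun w => (w : ℝ) ^ 3)]
    norm_num
  quadratic := by
    rw [sum_six (fun R r => (r - 1) * ∑ i, ((R.weight i : ℤ) : ℝ) ^ 2)]
    rw [sum_cube (fun w => (w : ℝ) ^ 2), sum_adj (fun w => (w : ℝ) ^ 2)]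
    norm_num

lemma theta_neg (x : ℝ) : theta (-x) = theta x := by
  unfold theta
  by_cases h : Int.fract x = 0
  · have h2 : Int.fract (-x) = 0 := by rwa [Int.fract_neg_eq_zero]
    rw [h, h2]
  · rw [Int.fract_neg h]; ring

lemma theta_nonneg (x : ℝ) : 0 ≤ theta x :=
  mul_nonneg (Int.fract_nonneg x) (by linarith [(Int.fract_lt_one x).le])

lemma theta_le (x : ℝ) : theta x ≤ 1 / 4 := by
  unfold theta
  nlinarith [sq_nonneg (Int.fract x - 1 / 2)]

lemma rains_datum (x : ℝ) :
    datum.rains x = 5 / 2 * theta (2 * x) - theta x - theta (3 * x) := by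
  have h0 : theta 0 = 0 := by simp [theta]
  have hroots : datum.roots.filter (fun α => 0 < α) = {2} := by
    change ({-2, 2} : Finset ℤ).filter (fun α => 0 < α) = {2}
    decide
  unfold Datum.rains
  rw [hroots, Finset.sum_singleton]
  have hs : (∑ j, (1 - datum.r j) * ∑ i, theta ((datum.R j).weight i * x))
      = 2 * ((1 - 3 / 2) * ∑ i, theta (cubeRep.weight i * x))
        + 4 * ((1 - 1 / 8) * ∑ i, theta (adjRep.weight i * x)) :=
    sum_six (fun (R : Rep) (r : ℝ) => (1 - r) * ∑ i, theta (R.weight i * x))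
  rw [hs]
  rw [sum_cube (fun w => theta (w * x)), sum_adj (fun w => theta (w * x))]
  have h3 : theta (((-3 : ℤ) : ℝ) * x) = theta (3 * x) := by
    rw [← theta_neg]; congr 1; push_cast; ring
  have h1 : theta (((-1 : ℤ) : ℝ) * x) = theta x := by
    rw [← theta_neg]; congr 1; push_cast; ring
  have h2 : theta (((-2 : ℤ) : ℝ) * x) = theta (2 * x) := by
    rw [← theta_neg]; congr 1; push_cast; ring
  rw [h1, h2, h3]
  push_cast
  rw [zero_mul, h0, one_mul]
  ring

lemma trR_datum : datum.trR = -7 / 2 := by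
  unfold Datum.trR
  have hs : (∑ j, (datum.r j - 1) * ((datum.R j).dim : ℝ))
      = 2 * ((3 / 2 - 1) * ((4 : ℕ) : ℝ)) + 4 * ((1 / 8 - 1) * ((3 : ℕ) : ℝ)) :=
    sum_six (fun (R : Rep) (r : ℝ) => (r - 1) * (R.dim : ℝ))
  rw [hs]
  norm_num

lemma cube_rev : ∀ i : Fin 4, (![3, 1, -1, -3] : Fin 4 → ℤ) (Fin.rev i)
    = -(![3, 1, -1, -3] : Fin 4 → ℤ) i := by decide

lemma adj_rev : ∀ i : Fin 3, (![2, 0, -2] : Fin 3 → ℤ) (Fin.rev i)
    = -(![2, 0, -2] : Fin 3 → ℤ) i := by decide

lemma nonChiral_datum : datum.NonChiral := by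
  intro w _
  refine Finset.sum_congr rfl ?_
  intro j _
  have hc : (Finset.univ.filter fun i => cubeRep.weight i = w).card
      = (Finset.univ.filter fun i => cubeRep.weight i = -w).card := by
    refine Finset.card_bij (fun i _ => Fin.rev i) ?_ ?_ ?_
    · intro i hi
      simp only [Finset.mem_filter, Finset.mem_univ, true_and] at hi ⊢
      rw [← hi]
      exact cube_rev i
    · intro a _ b _ h
      exact Fin.rev_injective h
    · intro b hb
      refine ⟨Fin.rev b, ?_, Fin.rev_rev b⟩
      simp only [Finset.mem_filter, Finset.mem_univ, true_and] at hb ⊢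
      have : w = -cubeRep.weight b := by rw [hb]; ring
      rw [this]
      exact cube_rev b
  have ha : (Finset.univ.filter fun i => adjRep.weight i = w).card
      = (Finset.univ.filter fun i => adjRep.weight i = -w).card := by
    refine Finset.card_bij (fun i _ => Fin.rev i) ?_ ?_ ?_
    · intro i hi
      simp only [Finset.mem_filter, Finset.mem_univ, true_and] at hi ⊢
      rw [← hi]
      exact adj_rev i
    · intro a _ b _ h
      exact Fin.rev_injective h
    · intro b hb
      refine ⟨Fin.rev b, ?_, Fin.rev_rev b⟩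
      simp only [Finset.mem_filter, Finset.mem_univ, true_and] at hb ⊢
      have : w = -adjRep.weight b := by rw [hb]; ring
      rw [this]
      exact adj_rev b
  change (Finset.univ.filter fun i => (reps j).weight i = w).card
    = (Finset.univ.filter fun i => (reps j).weight i = -w).card
  fin_cases j <;> first | exact hc | exact ha

/-- The Weyl element `!![0, 1; -1, 0]` of `SU(2)`. -/
def weyl : SU2 := ⟨!![0, 1; -1, 0], by
  rw [Matrix.mem_specialUnitaryGroup_iff, Matrix.mem_unitaryGroup_iff]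
  constructor
  · ext i j
    fin_cases i <;> fin_cases j <;> simp [Matrix.mul_apply, Matrix.star_apply]
  · simp [Matrix.det_fin_two]⟩

lemma torus_inv (R : Rep) (v : Fin R.dim → ℂ) (h : ∀ g : SU2, (R.ρ g).mulVec v = v) (x : ℝ)
    (i : Fin R.dim) : e (R.weight i * x) * v i = v i := by
  have h1 := congrFun (h (torus x)) i
  rw [R.torus_act x, Matrix.mulVec_diagonal] at h1
  exact h1

lemma noSinglets_cube (v : Fin 4 → ℂ) (h : ∀ g : SU2, (cubeRep.ρ g).mulVec v = v) : v = 0 := by
  have hv : ∀ i : Fin 4, e ((![3, 1, -1, -3] : Fin 4 → ℤ) i * (1 / 2 : ℝ)) * v i = v i :=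
    fun i => torus_inv cubeRep v h (1 / 2) i
  have e3 : e (3 / 2) = -1 := by
    rw [show (3 / 2 : ℝ) = 1 / 2 + (1 / 2 + 1 / 2) by norm_num, e_add, e_add, e_half]; norm_num
  have em1 : e (-(1 / 2)) = -1 := by
    have := e_neg_mul (1 / 2); rw [e_half] at this; linear_combination -this
  have em3 : e (-(3 / 2)) = -1 := by
    have := e_neg_mul (3 / 2); rw [e3] at this; linear_combination -this
  ext i
  have h1 := hv i
  have key : ∀ z : ℂ, z = -1 → z * v i = v i → v i = 0 := by
    intro z hz h2
    rw [hz] at h2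
    have : (2 : ℂ) * v i = 0 := by linear_combination -h2
    simpa using this
  refine key _ ?_ h1
  fin_cases i
  · simpa using (by rw [show (3 : ℝ) * (1 / 2) = 3 / 2 by norm_num]; exact e3 :
      e (3 * (1 / 2)) = -1)
  · simpa using e_half
  · simpa using em1
  · simpa using (by rw [show -((3 : ℝ) * (1 / 2)) = -(3 / 2) by norm_num]; exact em3 :
      e (-(3 * (1 / 2))) = -1)

lemma noSinglets_adj (v : Fin 3 → ℂ) (h : ∀ g : SU2, (adjRep.ρ g).mulVec v = v) : v = 0 := by
  have hv : ∀ i : Fin 3, e ((![2, 0, -2] : Fin 3 → ℤ) i * (1 / 4 : ℝ)) * v i = v i :=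
    fun i => torus_inv adjRep v h (1 / 4) i
  have em1 : e (-(1 / 2)) = -1 := by
    have := e_neg_mul (1 / 2); rw [e_half] at this; linear_combination -this
  have key : ∀ (i : Fin 3) (z : ℂ), z = -1 → z * v i = v i → v i = 0 := by
    intro i z hz h2
    rw [hz] at h2
    have : (2 : ℂ) * v i = 0 := by linear_combination -h2
    simpa using this
  have h0 : v 0 = 0 := by
    refine key 0 _ ?_ (hv 0)
    simpa using (by rw [show (2 : ℝ) * (1 / 4) = 1 / 2 by norm_num]; exact e_half :
      e (2 * (1 / 4)) = -1)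
  have h2 : v 2 = 0 := by
    refine key 2 _ ?_ (hv 2)
    simpa using (by rw [show -((2 : ℝ) * (1 / 4)) = -(1 / 2) by norm_num]; exact em1 :
      e (-(2 * (1 / 4))) = -1)
  have h1 : v 1 = 0 := by
    have hw : (sym2 (weyl : Matrix (Fin 2) (Fin 2) ℂ)).mulVec v = v := h weyl
    have hw' := congrFun hw 1
    simp [sym2, weyl, Matrix.mulVec, dotProduct, Fin.sum_univ_three] at hw'
    have : (2 : ℂ) * v 1 = 0 := by linear_combination -hw'
    simpa using this
  ext i
  fin_cases i
  · exact h0
  · exact h1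
  · exact h2

lemma noSinglets_datum : datum.NoSinglets := by
  intro j
  change ∀ v : Fin (reps j).dim → ℂ, (∀ g : SU2, ((reps j).ρ g).mulVec v = v) → v = 0
  fin_cases j <;> first | exact noSinglets_cube | exact noSinglets_adj

lemma theta_half : theta (1 / 2) = 1 / 4 := by
  unfold theta
  rw [Int.fract_eq_self.mpr ⟨by norm_num, by norm_num⟩]
  norm_num

lemma rains_half : datum.rains (1 / 2) = -1 / 2 := by
  rw [rains_datum]
  have h1 : theta (2 * (1 / 2)) = 0 := by
    unfold theta; norm_num
  have h3 : theta (3 * (1 / 2)) = 1 / 4 := by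
    unfold theta
    rw [show (3 : ℝ) * (1 / 2) = 1 / 2 + (1 : ℤ) by norm_num, Int.fract_add_intCast,
      Int.fract_eq_self.mpr ⟨by norm_num, by norm_num⟩]
    norm_num
  rw [h1, h3, theta_half]
  norm_num

lemma rains_ge (x : ℝ) : -1 / 2 ≤ datum.rains x := by
  rw [rains_datum]
  linarith [theta_nonneg (2 * x), theta_le x, theta_le (3 * x)]

lemma rains_small {x : ℝ} (hx0 : 0 < |x|) (hx : |x| < 1 / 3) : 0 < datum.rains x := by
  have key : ∀ y : ℝ, 0 < y → y < 1 / 3 → 0 < datum.rains y := by
    intro y h0 h1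
    rw [rains_datum]
    have e1 : theta y = y * (1 - y) := by
      unfold theta; rw [Int.fract_eq_self.mpr ⟨h0.le, by linarith⟩]
    have e2 : theta (2 * y) = (2 * y) * (1 - 2 * y) := by
      unfold theta; rw [Int.fract_eq_self.mpr ⟨by linarith, by linarith⟩]
    have e3 : theta (3 * y) = (3 * y) * (1 - 3 * y) := by
      unfold theta; rw [Int.fract_eq_self.mpr ⟨by linarith, by linarith⟩]
    rw [e1, e2, e3]
    nlinarith
  rcases lt_or_gt_of_ne (abs_pos.mp hx0) with h | h
  · have := key (-x) (by linarith) (by rw [abs_of_neg h] at hx; exact hx)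
    rw [rains_datum] at this ⊢
    rw [show 2 * -x = -(2 * x) by ring, show 3 * -x = -(3 * x) by ring, theta_neg, theta_neg,
      theta_neg] at this
    exact this
  · exact key x h (by rw [abs_of_pos h] at hx; exact hx)

end Pool.Agent.H754R3.Rains
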